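import Mathlib.CategoryTheory.Monoidal.Braided.Basic
import Mathlib.CategoryTheory.IsomorphismClasses
import Mathlib.CategoryTheory.Preadditive.Basic
import Mathlib.Algebra.BigOperators.Group.Multiset.Basic

/-!
# The monoid of the isomorphism classes of objects
-/

set_option autoImplicit false

namespace Pool.Agent.H547_g

open CategoryTheory MonoidalCategory

universe v u

section

variable (𝒞 : Type u) [Category.{v} 𝒞] [MonoidalCategory 𝒞]

/-- isomorphism classes of objects -/
def Ob : Type u := Quotient (isIsomorphicSetoid 𝒞)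

variable {𝒞}

/-- the class of an object -/
def ob (A : 𝒞) : Ob 𝒞 := Quotient.mk (isIsomorphicSetoid 𝒞) A

lemma ob_eq {A B : 𝒞} : ob A = ob B ↔ Nonempty (A ≅ B) :=
  Quotient.eq (r := isIsomorphicSetoid 𝒞)

end

variable {𝒞 : Type u} [Category.{v} 𝒞] [MonoidalCategory 𝒞] [BraidedCategory 𝒞]

instance : CommMonoid (Ob 𝒞) where
  mul x y := Quotient.liftOn₂ x y (fun A B => ob (A ⊗ B))
    (fun _ _ _ _ h h' => by
      obtain ⟨e⟩ := h
      obtain ⟨e'⟩ := h'
      exact ob_eq.mpr ⟨e ⊗ᵢ e'⟩)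
  mul_assoc x y z := by
    induction x using Quotient.ind
    induction y using Quotient.ind
    induction z using Quotient.ind
    exact ob_eq.mpr ⟨α_ _ _ _⟩
  mul_comm x y := by
    induction x using Quotient.ind
    induction y using Quotient.ind
    exact ob_eq.mpr ⟨β_ _ _⟩
  one := ob (𝟙_ 𝒞)
  one_mul x := by
    induction x using Quotient.ind
    exact ob_eq.mpr ⟨λ_ _⟩
  mul_one x := by
    induction x using Quotient.ind
    exact ob_eq.mpr ⟨ρ_ _⟩

lemma ob_tensor (A B : 𝒞) : ob (A ⊗ B) = ob A * ob B := rfl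

lemma ob_unit : ob (𝟙_ 𝒞) = 1 := rfl

/-- the product of a list of objects -/
def tens : List 𝒞 → 𝒞
  | [] => 𝟙_ 𝒞
  | A :: l => A ⊗ tens l

lemma ob_tens (l : List 𝒞) : ob (tens l) = (l.map ob).prod := by
  induction l with
  | nil => rfl
  | cons A l ih => rw [List.map_cons, List.prod_cons, ← ih]; rfl

/-- the powers of an object -/
def pow (A : 𝒞) : ℕ → 𝒞
  | 0 => 𝟙_ 𝒞
  | n + 1 => A ⊗ pow A n

lemma ob_pow (A : 𝒞) (n : ℕ) : ob (pow A n) = ob A ^ n := by
  induction n with
  | zero => rw [pow_zero]; rfl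
  | succ n ih => rw [pow_succ', ← ih]; rfl

end Pool.Agent.H547_g
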